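import Pool.Agent.E8helper40.GD.Spec

/-!
# Conjecture D for abelian varieties is equivalent to Tate's injectivity conjecture: linear forms
with rational values on algebraic classes are given by algebraic cycles

Let `k` be a field (algebraically closed in the applications) of any characteristic, and `W` a Weil
cohomology theory with **any** coefficient field `K` of characteristic zero (for instance `ℚ_ℓ`) on a
class of smooth proper varieties over `k` closed under products. Let `A` be an abelian variety, and
assume that `H^1(A)` is the direct sum of blocks, the images of the projectors `p l`, irreducible
under algebraic correspondences and the symmetries `𝒢` (`IsAbelianType`, `IsBlockSystemOne`, as in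
the theorem about the weights of components). Let a commutative, reduced and integral ring `O`
act on `A`, such that the adjoint for the polarisation of the operator of `a` on `H^1(A)` is the
operator of `c a`, where `c` induces the complex conjugation in all embeddings of `O` in `ℂ`, and
such that the projectors `p l` are `K`-linear combinations of the operators of `O` on `H^1(A)`
(`IsCentralAction`). Let `𝒴` be any set of varieties closed under products which satisfy `D`, and
`Y` a member of `𝒴` (for instance a point).

This applies to **all** abelian varieties over algebraically closed fields and to the `ℓ`-adic
cohomology for **all** primes `ℓ` other than the characteristic: `O` is an order in the centre of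
the endomorphism algebra, `c` the Rosati involution, `𝒢` the Galois group of a finitely generated
field over which `A` is defined, and the blocks correspond to the places above `ℓ` of the centre, by
the theorems of Tate, Zarhin, Mori and Faltings on homomorphisms.

Let `V` be a variety such that the classes of the cycles of codimension `j` on `V` factor through
the cohomology of `A × Y`, by algebraic correspondences (for instance `V = A × Y`, or the motive
of `V` is a direct factor of a twist of the motive of `A × Y`, such as for products of curves and
Fermat hypersurfaces).

**Theorem.** Every linear form on the cohomology of `V`, with values in some extension `F` of `K`,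
which has rational values on the classes of all cycles of codimension `j`, is on these classes the
intersection number with an algebraic cycle of codimension `dim V - j`. Consequently the conjecture
`D` for cycles of codimension `j` on `V` is **equivalent** to Tate's injectivity conjecture `I`
for cycles of codimension `j` on `V`: the map from the cycles of codimension `j` with rational
coefficients modulo homological equivalence, tensored with `K` over `ℚ`, to `H^{2j}(V)` is injective.

That `D` implies `I` is known and elementary, for all varieties. The converse is not known in
general, and was not known for abelian varieties of type IV and primes `ℓ` which split in the centre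
of the endomorphism algebra (and for the other `ℓ` the conjecture `D` itself is known, by a theorem
of Clozel over finite fields and its generalisations). In particular, `D` holds as soon as there is a
rational structure of `H^{2j}(V) ⊗ F`, for some extension `F` of `K`, which contains all algebraic
classes; no compatibility of this structure with anything else is needed.

The proof. After extension of the coefficients to an algebraic closure the class of a cycle `z` is the
sum of its components in the joint eigenspaces of the centre. The eigenvalues are products of
embeddings of `O`, so that the values of a linear form `f` on the classes of the translates
`(a × id)_* z`, `a ∈ O`, are `a ↦ ∑_χ χ(a) f_χ`, with multiplicative characters `χ` which are products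
of embeddings. If these values are rational, then conjugation, and linear independence of characters,
show that with `χ` also the complex conjugate of `χ` has a nonzero coefficient; a product of
embeddings is determined by its values up to the order of the factors. By the theorem about the
weights of the components of numerically trivial cycles there are real weights of the blocks, which
change their sign under the involution, such that all nonzero components of the class of a
numerically trivial cycle `z` have negative weight; but the weights of `χ` and its complex conjugate
are opposite. So all the coefficients are zero, and `f` vanishes on the classes of numerically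
trivial cycles. Since the linear forms `z ↦ deg (z · w)` span a finite-dimensional space over `ℚ`,
it follows that `f` is one of them.
-/

universe u v

namespace Pool.Agent.Results.MP_5f0950_ag.DIffInjectivityH40

open Pool.Agent.H914 Pool.Agent.H914.VarClass Pool.Agent.H447 Pool.Agent.R908
  Pool.Agent.E8helper40.GD

/-- **Linear forms with rational values on algebraic classes are algebraic, and the conjecture `D`
is equivalent to Tate's injectivity conjecture.** -/
theorem result {k : Type u} [Field k] {𝒱 : VarClass k} {ops : CycleOps 𝒱}
    (W : WeilCohomology.{u, v} ops) (𝒢 : Set (Symmetry W)) (A : 𝒱.Obj) (m : A.prod A ⟶ A)
    (D : A.Cycles) (hA : IsAbelianType 𝒢 A m D) {Λ : Type} [Fintype Λ] (bar : Λ → Λ)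
    (p : Λ → Module.End W.K (W.H A)) (hp : IsBlockSystemOne 𝒢 A D bar p)
    {O : Type} [CommRing O] [IsReduced O] [Algebra.IsIntegral ℤ O] (c : O →+* O)
    (hc : IsComplexConjugation c) (act : O → (A ⟶ A)) (hact : IsCentralAction W D p c act)
    (𝒴 : Set 𝒱.Obj) (h𝒴 : ∀ Y ∈ 𝒴, ∀ Z ∈ 𝒴, Y.prod Z ∈ 𝒴)
    (hY : ∀ Y ∈ 𝒴, ∀ j ≤ Y.dim, HomEqNumIn W Y j) (Y : 𝒱.Obj) (hYY : Y ∈ 𝒴)
    (V : 𝒱.Obj) (j : ℕ) (hj : j ≤ V.dim)
    (hV : IsFactorIn W V (A.prod Y) j) :
    RationalFormsAlgebraic W V j ∧ (HomEqNumIn W V j ↔ InjectivityIn W V j) := by
  have h : FormsVanish W V j := formsVanish hA hp hc hact h𝒴 hY hYY hV
  exact ⟨represented_of_vanish hj h, lifts_of_homEqNumIn hj, homEqNumIn_of_lifts hj h⟩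

end Pool.Agent.Results.MP_5f0950_ag.DIffInjectivityH40
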