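import Pool.Agent.E8helper40.GD.RankM

/-!
# Numerically trivial cycles on abelian varieties: the dimension over the rational numbers is at
# least twice the dimension over the coefficient field

Let `k` be a field (algebraically closed in the applications) of any characteristic, and `W` a Weil
cohomology theory with **any** coefficient field `K` of characteristic zero (for instance `ℚ_ℓ`) on a
class of smooth proper varieties over `k` closed under products. Let `A` be an abelian variety whose
`H^1(A)` is the direct sum of blocks, the images of the projectors `p l`, irreducible under algebraic
correspondences and the symmetries `𝒢` (`IsAbelianType`, `IsBlockSystemOne`), and let a commutative,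
reduced and integral ring `O` act on `A`, such that the adjoint for the polarisation of the operator
of `a` on `H^1(A)` is the operator of `c a`, where `c` induces the complex conjugation in all
embeddings of `O` in `ℂ`, and such that the projectors `p l` are `K`-linear combinations of the
operators of `O` on `H^1(A)` (`IsCentralAction`). Let `𝒴` be any set of varieties closed under
products which satisfy `D`, and `Y` a member of `𝒴` (for instance a point). By the theorems of Tate,
Zarhin, Mori and Faltings this applies to **all** abelian varieties over algebraically closed fields
and to the `ℓ`-adic cohomology for **all** primes `ℓ` other than the characteristic; `O` is an order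
in the centre of the endomorphism algebra, and the blocks correspond to its places above `ℓ`.

Let `V` be a variety such that the classes of the cycles of codimension `j` on `V` factor through
the cohomology of `A × Y`, by algebraic correspondences (for instance `V = A × Y`).

**Theorem.** Let `N ⊂ H^{2j}(V)` be the space over `ℚ` of the classes of the cycles of codimension `j`
on `V` with rational coefficients which are numerically equivalent to zero, and `K N` its span over
`K`. Then `dim_ℚ N ≥ 2 dim_K (K N)`: if there are `r` numerically trivial cycles whose classes are
linearly independent over `K`, then there are `2 r` numerically trivial cycles whose classes are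
linearly independent over `ℚ`.

The conjecture `D` says that `N = 0`. For the space `C` over `ℚ` of all algebraic classes the
dimension of the span `K C` is `dim_K (K N)` plus the dimension of `C / N`. So the theorem says that the
kernel of `C ⊗ K → H^{2j}(V)` has at least the dimension of `K N`, and that it has at least half of the
dimension of `N` over `ℚ`: the failure of Tate's injectivity conjecture `I` is at least as large as
the failure of the conjecture `D`, in each codimension. In particular `I` implies `D`. The factor `2`
cannot be improved without more information on the ring `O`: for an imaginary quadratic `O`, acting on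
a line over `K`, it is the ratio of the two dimensions.

The proof. Let `L` be an algebraic closure of `K`. The values of a linear form on the classes of the
translates `(a × id)_* z`, `a ∈ O`, of a numerically trivial cycle `z` are `a ↦ ∑_χ χ(a) x_χ` with
multiplicative characters `χ` which are products of embeddings of `O`. By the theorem about the
weights of the components of numerically trivial cycles only characters of negative weight occur,
for weights of the blocks which change their sign under the involution. Let `σ` be an automorphism of
`L` which extends complex conjugation of the algebraic numbers. The characters `σ χ` have positive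
weight, so that no `χ` is equal to a `σ χ'`. By linear independence of characters a relation between
the vectors `(x, σ x)`, `x ∈ N`, in the direct sum of the cohomology over `L` and its conjugate holds
for both components. So these vectors span a space of dimension `2 r` over `L`, and `2 r` of them are
linearly independent over `L`; the classes `x` of these are linearly independent over `ℚ`.
-/

universe u v

namespace Pool.Agent.Results.MP_5f0950_ag.DoubleRankH40

open Pool.Agent.H914 Pool.Agent.H914.VarClass Pool.Agent.H447 Pool.Agent.R908
  Pool.Agent.E8helper40.GD

/-- **If there are `r` numerically trivial cycles whose classes are linearly independent over the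
coefficient field, then there are `2 r` numerically trivial cycles whose classes are linearly
independent over the rational numbers.** -/
theorem result {k : Type u} [Field k] {𝒱 : VarClass k} {ops : CycleOps 𝒱}
    (W : WeilCohomology.{u, v} ops) (𝒢 : Set (Symmetry W)) (A : 𝒱.Obj) (m : A.prod A ⟶ A)
    (D : A.Cycles) (hA : IsAbelianType 𝒢 A m D) {Λ : Type} [Fintype Λ] (bar : Λ → Λ)
    (p : Λ → Module.End W.K (W.H A)) (hp : IsBlockSystemOne 𝒢 A D bar p)
    {O : Type} [CommRing O] [IsReduced O] [Algebra.IsIntegral ℤ O] (c : O →+* O)
    (hc : IsComplexConjugation c) (act : O → (A ⟶ A)) (hact : IsCentralAction W D p c act)
    (𝒴 : Set 𝒱.Obj) (h𝒴 : ∀ Y ∈ 𝒴, ∀ Z ∈ 𝒴, Y.prod Z ∈ 𝒴)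
    (hY : ∀ Y ∈ 𝒴, ∀ j ≤ Y.dim, HomEqNumIn W Y j) (Y : 𝒱.Obj) (hYY : Y ∈ 𝒴)
    (V : 𝒱.Obj) (j : ℕ) (hV : IsFactorIn W V (A.prod Y) j)
    (r : ℕ) (z : Fin r → V.Cycles) (hz : ∀ i, IsNumTrivial ops V j (z i))
    (hli : ∀ q : Fin r → W.K, ∑ i, q i • W.cl V (z i) = 0 → ∀ i, q i = 0) :
    ∃ z' : Fin (2 * r) → V.Cycles, (∀ i, IsNumTrivial ops V j (z' i)) ∧
      ∀ q : Fin (2 * r) → ℚ, ∑ i, (q i : W.K) • W.cl V (z' i) = 0 → ∀ i, q i = 0 :=
  rank_cycles hA hp hc hact h𝒴 hY hYY hV z hz hli

end Pool.Agent.Results.MP_5f0950_ag.DoubleRankH40
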