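import Pool.Agent.E8helper24.HP.DExp

/-!
# One percent of the algebraic classes on one explicit power of `X` decide conjecture D for `X`

Let `k` be any field, `W` any Weil cohomology theory, with coefficient field `K`, on a class of
smooth proper varieties over `k` closed under products, `X` any member of the class, and `b` the
dimension of its whole cohomology. No standard conjecture and no other hypothesis is assumed. Let

  `D(b, q) = 2^(b² + 10) (q + 1) b^(q + 4)`,   `r_n = √(log (n + 2) / (n + 1))`.

**Theorem.** For every `q`, either conjecture `D` (homological equivalence = numerical equivalence, in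
all codimensions) holds for `X^(q+1)`, or for **all** `n` and **all** varieties `Y`, `Z`: among the
`K`-linear combinations of the classes of algebraic cycles

* on `X^(n+1) × Z × Z` at most the proportion `D(b, q) r_n` is not numerically trivial;
* on `X^(n+1) × Y` at most the proportion `D(b, q) r_n b(Y)` is not numerically trivial, where `b(Y)`
  is the dimension of the whole cohomology of `Y`;
* on `X^(n+1) × Y × Z × Z` at most the proportion `D(b, q) r_n b(Y)` is not numerically trivial.

The constants depend only on the Betti number `b` and on `q`. For example (`q = 0`): if on **one** power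
`X^(n+1)` with `2^(b² + 10) b^4 √(log (n + 2) / (n + 1)) < 1 / 100` (or on one product
`X^(n+1) × Z × Z`, for any variety `Z`) one percent of the algebraic classes is not numerically
trivial, that is, the rank of the cycles modulo numerical equivalence is more than one percent of the
dimension of the span of the classes of cycles, then `D` holds for `X`. The number `n` depends only on
`b`, not on `X`, the field or the cohomology theory.

The proof. Let `z` be the class of a numerically trivial cycle on `X^(q+1)`, `z ≠ 0`, and
`U = X^(2q+2)`. The operator `u = ∑ 1 ⊗ ... ⊗ (tr(·) z) ⊗ ... ⊗ 1` on `P = U^m` is given by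
numerically trivial classes and is part of an `sl(2)`-triple (not algebraic), so that by the local limit
theorem for weights `dim ker u^i ≤ (2 i + 1) √(b(U) / (2 m + 2)) dim H(P)`. Counting the classes on
`P × T` by the powers of `u` gives `I a(P × T) ≤ dim C(P × T) + ∑_{i < I} a(g_i P × T)`, where `C` is
the span of the algebraic classes, `a` the rank of the cycles modulo numerical equivalence, and `g_i`
an idempotent algebraic correspondence of maximal rank with `u^i g_i = 0`. For `T = X^(2l) × Z × Z`
the Cauchy-Schwarz inequality for ranks gives `a(g P × T) ≤ rank(g) a(T)`, and the sequence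
`a(X^(2l) × Z × Z)` is log-convex. The new point is an alternative for **one** exponent `l`: if
`a(X^(2l) × Z × Z) ≥ b^(2l) a(Z × Z) / (l + 1)^(b² + 1)`, then log-convexity gives
`a(P × T) ≥ dim H(P) a(T) / 4` for `m ≤ c l / log l` with an explicit `c`; otherwise `a` is smaller by
a factor `1 / l` than the number of the classes given by the permutations of the factors, which is at
least `b^(2l) a(Z × Z) / (l + 1)^(b²)`.
-/

universe u v

namespace Pool.Agent.Results.MP_5f0950_ag.OnePercentH24

open Pool.Agent.H914 Pool.Agent.H914.VarClass Pool.Agent.Y133.Half Pool.Agent.E8helper24.INF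
open Pool.Agent.E8helper24.HP (constD)

/-- **One percent of the algebraic classes on one explicit power decide conjecture D.** Here `pw X n`
is the product of `n + 1` copies of `X`, `rate n = √(log (n + 2) / (n + 1))` and
`constD b q = 2 ^ (b ² + 10) (q + 1) b ^ (q + 4)`. -/
theorem result {k : Type u} [Field k] {𝒱 : VarClass k} {ops : CycleOps 𝒱}
    (W : WeilCohomology.{u, v} ops) (X : 𝒱.Obj) (q : ℕ) :
    HomEqNum W (pw X q) ∨ ∀ n : ℕ,
        (∀ Z : 𝒱.Obj, AtMost W (constD (Module.finrank W.K (W.H X)) q * rate n)
          ((pw X n).prod (Z.prod Z))) ∧
        (∀ Y : 𝒱.Obj, AtMost W (constD (Module.finrank W.K (W.H X)) q * rate n *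
          Module.finrank W.K (W.H Y)) ((pw X n).prod Y)) ∧
        (∀ Y Z : 𝒱.Obj, AtMost W (constD (Module.finrank W.K (W.H X)) q * rate n *
          Module.finrank W.K (W.H Y)) ((pw X n).prod (Y.prod (Z.prod Z)))) :=
  Pool.Agent.E8helper24.HP.d_explicit W X q

end Pool.Agent.Results.MP_5f0950_ag.OnePercentH24
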