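import Pool.Agent.E8helper40.GD.Spec

/-!
# Numerically trivial cycles on abelian varieties specialise to numerically trivial cycles, and
conjecture D for a specialisation implies conjecture D

Let `k` be a field (algebraically closed in the applications) of any characteristic, and `W` a Weil
cohomology theory with **any** coefficient field `K` of characteristic zero (for instance `ℚ_ℓ`) on a
class of smooth proper varieties over `k` closed under products. Let `A` be an abelian variety, and
assume that `H^1(A)` is the direct sum of blocks, the images of the projectors `p l`, irreducible
under algebraic correspondences and the symmetries `𝒢` (`IsAbelianType`, `IsBlockSystemOne`, as in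
the theorem about the weights of components). Let a commutative, reduced and integral ring `O`
act on `A`, such that the adjoint for the polarisation of the operator of `a` on `H^1(A)` is the
operator of `c a`, where `c` induces the complex conjugation in all embeddings of `O` in `ℂ`, and
such that the projectors `p l` are `K`-linear combinations of the operators of `O` on `H^1(A)`
(`IsCentralAction`). Let `𝒴` be any set of varieties closed under products which satisfy `D`, and
`Y` a member of `𝒴` (for instance a point).

This applies to **all** abelian varieties over algebraically closed fields and to the `ℓ`-adic
cohomology for **all** primes `ℓ` other than the characteristic: `O` is an order in the centre of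
the endomorphism algebra, `c` the Rosati involution, `𝒢` the Galois group of a finitely generated
field over which `A` is defined, and the blocks correspond to the places above `ℓ` of the centre, by
the theorems of Tate, Zarhin, Mori and Faltings on homomorphisms.

Let `V` be a variety such that the classes of the cycles of codimension `j` on `V` factor through
the cohomology of `A × Y`, by algebraic correspondences (for instance `V = A × Y`, or the motive
of `V` is a direct factor of a twist of the motive of `A × Y`). Let `X` be a specialisation of `V`: a
variety over another field `k'`, with a Weil cohomology theory `W'` with coefficients in an extension
of `K`, a map `sp` of the cycles of codimension `j`, and a compatible semilinear map `σ` of the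
cohomology, injective on `H^{2j}(V)`. For instance, `X` is a special fibre of a smooth proper family
over a valuation ring with the generic fibre `V`.

**Theorem.** If `z` is a numerically trivial cycle of codimension `j` on `V` then its specialisation
is numerically trivial on `X`. Consequently, if `D` holds for cycles of codimension `j` on `X` then it
holds for cycles of codimension `j` on `V`. In particular `D` holds (without any conjecture) for
cycles of codimension `j` on `V` if `H^{2(dim X - j)}(X)` is spanned by classes of algebraic cycles.

It is not known in general that numerically trivial cycles specialise to numerically trivial cycles,
since there are more cycles on the special fibre, nor that the conjecture `D` for a special fibre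
implies `D` for the general fibre. (If `D` holds for `V` the first statement is clear, and this
is the case in characteristic zero, by a theorem of Lieberman; the content of the theorem is in
characteristic `p`.) The classical argument for `D` on `V` by specialisation needs more than `D` for
the special fibre, namely the standard conjecture of Hodge type, the positivity of which is
inherited by `V`.

Consequences. (a) If `D` holds for the `ℓ`-adic cohomology of all abelian varieties over an algebraic
closure of the field with `p` elements, then it holds, for the same `ℓ`, for all abelian varieties
over all fields of characteristic `p`, and for all varieties whose motives are direct factors of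
twists of motives of abelian varieties. (b) Let `A` be an abelian variety over an algebraically
closed field of characteristic `p` and `A₀` a specialisation. If `D` holds for `A₀` and one `ℓ`, then
`D` holds for `A` and the same `ℓ`, also if `A` is of type IV and `ℓ` splits in the centre of the
endomorphism algebra, where classes of Weil type on the powers of `A` are Tate classes which are not
excluded by weights. The prime numbers `ℓ` which are good for `A₀` in the theorem of Clozel may be
split in the centre for `A`, since the centre of the endomorphism algebra of `A₀` need not contain the
one of `A`. (c) For the numerical equivalence itself: for a family of abelian varieties the groups of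
cycles modulo numerical equivalence of the geometric fibres have specialisation maps.

The proof. For every cycle `w` on `X` of codimension `dim X - j` the map `x ↦ tr (σ x · cl w)` is a
linear form on `H(V)`, with values in the coefficient field of `W'`, which has the rational value
`deg (sp z · w)` on the class of `z`, for every cycle `z` of codimension `j`. It is shown that all
such linear forms vanish on the classes of numerically trivial cycles: after extension of the
coefficients to an algebraic closure the class of a cycle `z` on `A × Y` is the sum of its components
in the joint eigenspaces of the centre, and the values of the form on the classes of the translates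
`(a × id)_* z`, `a ∈ O`, are `a ↦ ∑_χ χ(a) f_χ`, with multiplicative characters `χ` which are products
of embeddings of `O`. As these values are rational, conjugation, and linear independence of
characters, show that with `χ` also the complex conjugate of `χ` has a nonzero coefficient. By the
theorem about the weights of the components of numerically trivial cycles there are real weights of
the blocks, which change their sign under the involution, such that all nonzero components of the
class of `z` have negative weight; but the weights of `χ` and its complex conjugate are opposite.
-/

universe u v u'

namespace Pool.Agent.Results.MP_5f0950_ag.SpecializationH40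

open Pool.Agent.H914 Pool.Agent.H914.VarClass Pool.Agent.H447 Pool.Agent.R908
  Pool.Agent.E8helper40.GD

/-- **Numerically trivial cycles specialise to numerically trivial cycles, and the conjecture `D`
for a specialisation implies the conjecture `D`.** -/
theorem result {k : Type u} [Field k] {𝒱 : VarClass k} {ops : CycleOps 𝒱}
    (W : WeilCohomology.{u, v} ops) (𝒢 : Set (Symmetry W)) (A : 𝒱.Obj) (m : A.prod A ⟶ A)
    (D : A.Cycles) (hA : IsAbelianType 𝒢 A m D) {Λ : Type} [Fintype Λ] (bar : Λ → Λ)
    (p : Λ → Module.End W.K (W.H A)) (hp : IsBlockSystemOne 𝒢 A D bar p)
    {O : Type} [CommRing O] [IsReduced O] [Algebra.IsIntegral ℤ O] (c : O →+* O)
    (hc : IsComplexConjugation c) (act : O → (A ⟶ A)) (hact : IsCentralAction W D p c act)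
    (𝒴 : Set 𝒱.Obj) (h𝒴 : ∀ Y ∈ 𝒴, ∀ Z ∈ 𝒴, Y.prod Z ∈ 𝒴)
    (hY : ∀ Y ∈ 𝒴, ∀ j ≤ Y.dim, HomEqNumIn W Y j) (Y : 𝒱.Obj) (hYY : Y ∈ 𝒴)
    (V : 𝒱.Obj) (j : ℕ) (hj : j ≤ V.dim)
    (hV : IsFactorIn W V (A.prod Y) j) {k' : Type u'} [Field k'] {𝒱' : VarClass k'}
    {ops' : CycleOps 𝒱'} (W' : WeilCohomology.{u', v} ops') (X : 𝒱'.Obj)
    (sp : V.Cycles → X.Cycles) (hs : IsSpecialization W W' sp j) :
    (∀ z, IsNumTrivial ops V j z → IsNumTrivial ops' X j (sp z)) ∧
    (HomEqNumIn W' X j → HomEqNumIn W V j) ∧
    (IsContained (W'.gr X (2 * (X.dim - j))) (spanCycles W' X (X.dim - j : ℕ)) →
      HomEqNumIn W V j) := by
  have h : FormsVanish W V j := formsVanish hA hp hc hact h𝒴 hY hYY hV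
  exact ⟨fun z hz => hs.numTrivial h hz, hs.homEqNumIn hj h,
    fun hX => hs.homEqNumIn hj h (homEqNumIn_of_span (hs.1 ▸ hj) hX)⟩

end Pool.Agent.Results.MP_5f0950_ag.SpecializationH40
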